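import Pool.Agent.Helper96.SE.Stmts

set_option autoImplicit false

/-! # CN1: the strands at the end of the subcolumns -/

namespace Pool.Agent.Helper96.SE

open Pool.Agent.Helper52.Grid

/-! ## Local used edges -/

/-- used local horizontal edges of a row -/
def cn1_lh (ρ : RK) (f g : Bool) (x r : ℕ) : Bool :=
  if hE ρ r x = 0 then true else if hE ρ r x = 2 then hOE ρ f g r x else false

/-- used local vertical edges of a row, `x < 18` -/
def cn1_lv (ρ : RK) (f g : Bool) (x r : ℕ) : Bool :=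
  if x < 18 then
    (if vE ρ 0 r x = 0 then true else if vE ρ 0 r x = 2 then vOE ρ f g r x else false)
  else false

/-- used local horizontal edges of two rows of the kinds `ρ`, `ρ'` -/
def cn1_dh (ρ ρ' : RK) (g f f' : Bool) (x y : ℕ) : Bool :=
  if y < 6 then cn1_lh ρ f g x y else if y < 12 then cn1_lh ρ' f' f x (y - 6) else false

/-- used local vertical edges of two rows of the kinds `ρ`, `ρ'` -/
def cn1_dv (ρ ρ' : RK) (g f f' : Bool) (x y : ℕ) : Bool :=
  if y < 6 then cn1_lv ρ f g x y else if y < 12 then cn1_lv ρ' f' f x (y - 6) else false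

/-- `q` is a neighbour of `p` along a used edge -/
def cn1_step (h v : ℕ → ℕ → Bool) (p q : ℕ × ℕ) : Bool :=
  (decide (q = (p.1 + 1, p.2)) && h p.1 p.2) || (decide (p = (q.1 + 1, q.2)) && h q.1 q.2) ||
  (decide (q = (p.1, p.2 + 1)) && v p.1 p.2) || (decide (p = (q.1, q.2 + 1)) && v q.1 q.2)

/-- the list is a path of used edges from `p` to `q` -/
def cn1_ok (h v : ℕ → ℕ → Bool) (q : ℕ × ℕ) : ℕ × ℕ → List (ℕ × ℕ) → Bool
  | p, [] => decide (p = q)
  | p, p' :: l => cn1_step h v p p' && cn1_ok h v q p' l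

theorem cn1_ok_iff {h v : ℕ → ℕ → Bool} {S : ℕ × ℕ → Prop}
    (hh : ∀ x y, h x y = true → (S (x, y) ↔ S (x + 1, y)))
    (hv : ∀ x y, v x y = true → (S (x, y) ↔ S (x, y + 1))) (q : ℕ × ℕ) :
    ∀ (l : List (ℕ × ℕ)) (p : ℕ × ℕ), cn1_ok h v q p l = true → (S p ↔ S q) := by
  intro l
  induction l with
  | nil =>
    intro p hp
    have : p = q := by simpa [cn1_ok] using hp
    rw [this]
  | cons p' l ih =>
    intro p hp
    rw [cn1_ok, Bool.and_eq_true] at hp
    rw [← ih p' hp.2]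
    have h1 := hp.1
    simp only [cn1_step, Bool.or_eq_true, Bool.and_eq_true, decide_eq_true_eq] at h1
    obtain ((⟨e, h2⟩ | ⟨e, h2⟩) | ⟨e, h2⟩) | ⟨e, h2⟩ := h1
    · rw [e]; exact hh _ _ h2
    · rw [e]; exact (hh _ _ h2).symm
    · rw [e]; exact hv _ _ h2
    · rw [e]; exact (hv _ _ h2).symm

/-! ## Translation -/

theorem cn1_vE {ρ : RK} {i r x : ℕ} (hx : x < 18) : vE ρ i r x = vE ρ 0 r x := by
  unfold vE
  by_cases h1 : x < 4
  · rw [if_pos h1, if_pos h1]
  rw [if_neg h1, if_neg h1]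
  by_cases h2 : x < 12
  · rw [if_pos h2, if_pos h2]
  rw [if_neg h2, if_neg h2]
  by_cases h3 : x < 16
  · rw [if_pos h3, if_pos h3]
  rw [if_neg h3, if_neg h3]
  have h4 : x = 16 ∨ x = 17 := by omega
  obtain h4 | h4 := h4 <;> subst h4 <;> rfl

section
variable {s : List Sub} {M : ℕ} {T a ch : ℕ → Bool} {S : Pt → Prop}

theorem cn1_hrow (hS : Cls (hNU s M T a ch) (vNU s M T a ch) S) {i r x x' y : ℕ}
    (hi : i < 2 * M + 1) (hr : r < 6) (hx : x' = 5 + 4 * s.length + x) (hy : y = 4 + 6 * i + r)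
    (h : cn1_lh (rk T i) (bst s a i s.length) (bst s a (i - 1) s.length) x r = true) :
    S (x', y) ↔ S (x' + 1, y) := by
  refine hS.1 x' y ?_
  rw [hNU_row hi hr hx hy]
  exact h

theorem cn1_vrow (hS : Cls (hNU s M T a ch) (vNU s M T a ch) S) {i r x x' y : ℕ}
    (hi : i < 2 * M + 1) (hr : r < 6) (hx : x' = 5 + 4 * s.length + x) (hy : y = 4 + 6 * i + r)
    (h : cn1_lv (rk T i) (bst s a i s.length) (bst s a (i - 1) s.length) x r = true) :
    S (x', y) ↔ S (x', y + 1) := by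
  unfold cn1_lv at h
  by_cases h18 : x < 18
  · rw [if_pos h18] at h
    refine hS.2 x' y ?_
    rw [vNU_row hi hr hx hy, cn1_vE h18]
    exact h
  · rw [if_neg h18] at h
    exact absurd h (by decide)

/-- the used edges of two rows -/
theorem cn1_pair (hS : Cls (hNU s M T a ch) (vNU s M T a ch) S) {i : ℕ}
    (hi : i + 1 < 2 * M + 1) :
    (∀ x y, cn1_dh (rk T i) (rk T (i + 1)) (bst s a (i - 1) s.length) (bst s a i s.length)
        (bst s a (i + 1) s.length) x y = true →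
      (S (5 + 4 * s.length + x, 4 + 6 * i + y) ↔
        S (5 + 4 * s.length + (x + 1), 4 + 6 * i + y))) ∧
    ∀ x y, cn1_dv (rk T i) (rk T (i + 1)) (bst s a (i - 1) s.length) (bst s a i s.length)
        (bst s a (i + 1) s.length) x y = true →
      (S (5 + 4 * s.length + x, 4 + 6 * i + y) ↔
        S (5 + 4 * s.length + x, 4 + 6 * i + (y + 1))) := by
  constructor
  · intro x y h
    unfold cn1_dh at h
    by_cases h6 : y < 6
    · rw [if_pos h6] at h
      exact cn1_hrow hS (by omega) h6 rfl rfl h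
    rw [if_neg h6] at h
    by_cases h12 : y < 12
    · rw [if_pos h12] at h
      exact cn1_hrow hS hi (r := y - 6) (by omega) rfl (by omega) h
    · rw [if_neg h12] at h
      exact absurd h (by decide)
  · intro x y h
    unfold cn1_dv at h
    by_cases h6 : y < 6
    · rw [if_pos h6] at h
      exact cn1_vrow hS (by omega) h6 rfl rfl h
    rw [if_neg h6] at h
    by_cases h12 : y < 12
    · rw [if_pos h12] at h
      exact cn1_vrow hS hi (r := y - 6) (by omega) rfl (by omega) h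
    · rw [if_neg h12] at h
      exact absurd h (by decide)

/-- the used edges of one row -/
theorem cn1_row (hS : Cls (hNU s M T a ch) (vNU s M T a ch) S) {i : ℕ} (hi : i < 2 * M + 1) :
    (∀ x y, (if y < 6 then cn1_lh (rk T i) (bst s a i s.length) (bst s a (i - 1) s.length) x y
        else false) = true →
      (S (5 + 4 * s.length + x, 4 + 6 * i + y) ↔
        S (5 + 4 * s.length + (x + 1), 4 + 6 * i + y))) ∧
    ∀ x y, (if y < 6 then cn1_lv (rk T i) (bst s a i s.length) (bst s a (i - 1) s.length) x y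
        else false) = true →
      (S (5 + 4 * s.length + x, 4 + 6 * i + y) ↔
        S (5 + 4 * s.length + x, 4 + 6 * i + (y + 1))) := by
  constructor
  · intro x y h
    by_cases h6 : y < 6
    · rw [if_pos h6] at h
      exact cn1_hrow hS hi h6 rfl rfl h
    · rw [if_neg h6] at h
      exact absurd h (by decide)
  · intro x y h
    by_cases h6 : y < 6
    · rw [if_pos h6] at h
      exact cn1_vrow hS hi h6 rfl rfl h
    · rw [if_neg h6] at h
      exact absurd h (by decide)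

end

/-! ## Paths -/

def cn1_N_f_a : List (ℕ × ℕ) :=
  [(1, 1), (2, 1), (3, 1), (4, 1), (5, 1), (6, 1), (7, 1), (8, 1), (9, 1), (10, 1), (11, 1),
   (12, 1), (13, 1), (14, 1), (15, 1), (16, 1), (17, 1), (17, 2), (17, 3), (16, 3), (15, 3),
   (14, 3), (13, 3), (12, 3), (11, 3), (10, 3), (9, 3), (8, 3), (7, 3), (6, 3), (5, 3), (4, 3),
   (3, 3), (2, 3), (1, 3), (0, 3)]

def cn1_N_f_b : List (ℕ × ℕ) :=
  [(1, 5), (2, 5), (3, 5), (4, 5), (5, 5), (6, 5), (7, 5), (8, 5), (9, 5), (10, 5), (11, 5),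
   (12, 5), (13, 5), (14, 5), (15, 5), (16, 5), (16, 4), (17, 4), (18, 4)]

def cn1_N_t_a : List (ℕ × ℕ) :=
  [(1, 3), (2, 3), (3, 3), (4, 3), (5, 3), (6, 3), (7, 3), (8, 3), (9, 3), (10, 3), (11, 3),
   (12, 3), (13, 3), (14, 3), (15, 3), (16, 3), (16, 4), (16, 5), (15, 5), (14, 5), (13, 5),
   (12, 5), (11, 5), (10, 5), (9, 5), (8, 5), (7, 5), (6, 5), (5, 5), (4, 5), (3, 5), (2, 5),
   (1, 5), (0, 5)]

def cn1_N_t_b : List (ℕ × ℕ) :=
  [(1, 1), (2, 1), (3, 1), (4, 1), (5, 1), (6, 1), (7, 1), (8, 1), (9, 1), (10, 1), (11, 1),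
   (12, 1), (13, 1), (14, 1), (15, 1), (16, 1), (17, 1), (17, 2), (17, 3), (17, 4), (18, 4)]

def cn1_P_ff_Ua : List (ℕ × ℕ) :=
  [(1, 1), (1, 2), (0, 2), (0, 3)]

def cn1_P_ff_Ub : List (ℕ × ℕ) :=
  [(1, 5), (1, 4), (1, 3), (2, 3), (2, 4), (2, 5), (3, 5), (4, 5), (4, 4), (5, 4), (5, 3),
   (4, 3), (3, 3), (3, 2), (2, 2), (2, 1), (3, 1), (4, 1), (4, 2), (5, 2), (6, 2), (6, 1),
   (7, 1), (8, 1), (9, 1), (10, 1), (11, 1), (12, 1), (13, 1), (14, 1), (15, 1), (16, 1),
   (17, 1), (17, 2), (17, 3), (16, 3), (15, 3), (14, 3), (13, 3), (12, 3), (11, 3), (10, 3),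
   (9, 3), (8, 3), (7, 3), (6, 3), (6, 4), (7, 4), (8, 4), (9, 4), (10, 4), (10, 5), (11, 5),
   (12, 5), (13, 5), (14, 5), (15, 5), (16, 5), (16, 4), (17, 4), (18, 4)]

def cn1_P_ff_La : List (ℕ × ℕ) :=
  [(1, 7), (1, 8), (0, 8), (0, 9)]

def cn1_P_ff_Lb : List (ℕ × ℕ) :=
  [(1, 11), (1, 10), (1, 9), (2, 9), (2, 10), (2, 11), (3, 11), (4, 11), (5, 11), (5, 10),
   (5, 9), (6, 9), (6, 8), (7, 8), (7, 9), (7, 10), (7, 11), (8, 11), (9, 11), (10, 11),
   (11, 11), (12, 11), (13, 11), (13, 10), (13, 9), (13, 8), (12, 8), (12, 9), (11, 9),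
   (10, 9), (9, 9), (8, 9), (8, 8), (8, 7), (8, 6), (7, 6), (7, 7), (6, 7), (5, 7), (5, 8),
   (4, 8), (4, 9), (3, 9), (3, 8), (2, 8), (2, 7), (3, 7), (4, 7), (4, 6), (5, 6), (5, 5),
   (6, 5), (7, 5), (8, 5), (9, 5), (9, 6), (9, 7), (10, 7), (11, 7), (12, 7), (13, 7), (14, 7),
   (15, 7), (16, 7), (17, 7), (17, 8), (17, 9), (16, 9), (15, 9), (15, 8), (14, 8), (14, 9),
   (14, 10), (14, 11), (15, 11), (16, 11), (16, 10), (17, 10), (18, 10)]

def cn1_P_ft_Ua : List (ℕ × ℕ) :=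
  [(1, 1), (1, 2), (0, 2), (0, 3)]

def cn1_P_ft_Ub : List (ℕ × ℕ) :=
  [(1, 5), (1, 4), (1, 3), (2, 3), (2, 4), (2, 5), (3, 5), (4, 5), (4, 4), (5, 4), (5, 3),
   (4, 3), (3, 3), (3, 2), (2, 2), (2, 1), (3, 1), (4, 1), (4, 2), (5, 2), (6, 2), (6, 1),
   (7, 1), (8, 1), (9, 1), (10, 1), (11, 1), (12, 1), (13, 1), (14, 1), (15, 1), (16, 1),
   (17, 1), (17, 2), (17, 3), (16, 3), (15, 3), (14, 3), (13, 3), (12, 3), (11, 3), (10, 3),
   (9, 3), (8, 3), (7, 3), (6, 3), (6, 4), (7, 4), (8, 4), (9, 4), (10, 4), (10, 5), (11, 5),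
   (12, 5), (13, 5), (14, 5), (15, 5), (16, 5), (16, 4), (17, 4), (18, 4)]

def cn1_P_ft_La : List (ℕ × ℕ) :=
  [(0, 8), (1, 8), (1, 9), (1, 10), (1, 11), (0, 11)]

def cn1_P_ft_Lb : List (ℕ × ℕ) :=
  [(1, 7), (2, 7), (3, 7), (4, 7), (4, 6), (5, 6), (5, 5), (6, 5), (7, 5), (8, 5), (9, 5),
   (9, 6), (9, 7), (10, 7), (11, 7), (12, 7), (13, 7), (13, 8), (12, 8), (12, 9), (11, 9),
   (10, 9), (9, 9), (8, 9), (8, 8), (8, 7), (8, 6), (7, 6), (7, 7), (6, 7), (5, 7), (5, 8),
   (4, 8), (4, 9), (3, 9), (3, 8), (2, 8), (2, 9), (2, 10), (2, 11), (3, 11), (4, 11), (5, 11),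
   (5, 10), (5, 9), (6, 9), (6, 8), (7, 8), (7, 9), (7, 10), (7, 11), (8, 11), (9, 11),
   (10, 11), (11, 11), (12, 11), (13, 11), (13, 10), (13, 9), (14, 9), (14, 10), (14, 11),
   (15, 11), (16, 11), (16, 10), (16, 9), (15, 9), (15, 8), (14, 8), (14, 7), (15, 7), (16, 7),
   (17, 7), (17, 8), (17, 9), (17, 10), (18, 10)]

def cn1_P_tf_Ua : List (ℕ × ℕ) :=
  [(0, 2), (1, 2), (1, 3), (1, 4), (1, 5), (0, 5)]

def cn1_P_tf_Ub : List (ℕ × ℕ) :=
  [(1, 1), (2, 1), (3, 1), (4, 1), (4, 2), (5, 2), (5, 3), (4, 3), (3, 3), (3, 2), (2, 2),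
   (2, 3), (2, 4), (2, 5), (3, 5), (4, 5), (4, 4), (5, 4), (5, 5), (6, 5), (6, 4), (7, 4),
   (8, 4), (9, 4), (10, 4), (10, 5), (11, 5), (12, 5), (13, 5), (14, 5), (15, 5), (16, 5),
   (16, 4), (16, 3), (15, 3), (14, 3), (13, 3), (12, 3), (11, 3), (10, 3), (9, 3), (8, 3),
   (7, 3), (6, 3), (6, 2), (6, 1), (7, 1), (8, 1), (9, 1), (10, 1), (11, 1), (12, 1), (13, 1),
   (14, 1), (15, 1), (16, 1), (17, 1), (17, 2), (17, 3), (17, 4), (18, 4)]

def cn1_P_tf_La : List (ℕ × ℕ) :=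
  [(1, 7), (1, 8), (0, 8), (0, 9)]

def cn1_P_tf_Lb : List (ℕ × ℕ) :=
  [(1, 11), (1, 10), (1, 9), (2, 9), (2, 10), (2, 11), (3, 11), (4, 11), (5, 11), (5, 10),
   (5, 9), (6, 9), (6, 8), (5, 8), (4, 8), (4, 9), (3, 9), (3, 8), (2, 8), (2, 7), (3, 7),
   (4, 7), (4, 6), (5, 6), (5, 7), (6, 7), (7, 7), (7, 8), (7, 9), (7, 10), (7, 11), (8, 11),
   (9, 11), (10, 11), (11, 11), (12, 11), (13, 11), (13, 10), (13, 9), (13, 8), (12, 8),
   (12, 9), (11, 9), (10, 9), (9, 9), (8, 9), (8, 8), (8, 7), (8, 6), (7, 6), (7, 5), (8, 5),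
   (9, 5), (9, 6), (9, 7), (10, 7), (11, 7), (12, 7), (13, 7), (14, 7), (15, 7), (16, 7),
   (17, 7), (17, 8), (17, 9), (16, 9), (15, 9), (15, 8), (14, 8), (14, 9), (14, 10), (14, 11),
   (15, 11), (16, 11), (16, 10), (17, 10), (18, 10)]

def cn1_P_tt_Ua : List (ℕ × ℕ) :=
  [(0, 2), (1, 2), (1, 3), (1, 4), (1, 5), (0, 5)]

def cn1_P_tt_Ub : List (ℕ × ℕ) :=
  [(1, 1), (2, 1), (3, 1), (4, 1), (4, 2), (5, 2), (5, 3), (4, 3), (3, 3), (3, 2), (2, 2),
   (2, 3), (2, 4), (2, 5), (3, 5), (4, 5), (4, 4), (5, 4), (5, 5), (6, 5), (6, 4), (7, 4),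
   (8, 4), (9, 4), (10, 4), (10, 5), (11, 5), (12, 5), (13, 5), (14, 5), (15, 5), (16, 5),
   (16, 4), (16, 3), (15, 3), (14, 3), (13, 3), (12, 3), (11, 3), (10, 3), (9, 3), (8, 3),
   (7, 3), (6, 3), (6, 2), (6, 1), (7, 1), (8, 1), (9, 1), (10, 1), (11, 1), (12, 1), (13, 1),
   (14, 1), (15, 1), (16, 1), (17, 1), (17, 2), (17, 3), (17, 4), (18, 4)]

def cn1_P_tt_La : List (ℕ × ℕ) :=
  [(0, 8), (1, 8), (1, 9), (1, 10), (1, 11), (0, 11)]

def cn1_P_tt_Lb : List (ℕ × ℕ) :=
  [(1, 7), (2, 7), (3, 7), (4, 7), (4, 6), (5, 6), (5, 7), (6, 7), (7, 7), (7, 8), (7, 9),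
   (7, 10), (7, 11), (8, 11), (9, 11), (10, 11), (11, 11), (12, 11), (13, 11), (13, 10),
   (13, 9), (14, 9), (14, 10), (14, 11), (15, 11), (16, 11), (16, 10), (16, 9), (15, 9),
   (15, 8), (14, 8), (14, 7), (15, 7), (16, 7), (17, 7), (17, 8), (17, 9), (17, 10), (18, 10)]

/-- paths in a row of kind `N` -/
theorem cn1_N : ∀ g f : Bool,
    (f = true →
      cn1_ok (fun x y => if y < 6 then cn1_lh .N f g x y else false)
        (fun x y => if y < 6 then cn1_lv .N f g x y else false) (0, 5) (0, 3) cn1_N_t_a = true ∧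
      cn1_ok (fun x y => if y < 6 then cn1_lh .N f g x y else false)
        (fun x y => if y < 6 then cn1_lv .N f g x y else false) (18, 4) (0, 1) cn1_N_t_b = true) ∧
    (f = false →
      cn1_ok (fun x y => if y < 6 then cn1_lh .N f g x y else false)
        (fun x y => if y < 6 then cn1_lv .N f g x y else false) (0, 3) (0, 1) cn1_N_f_a = true ∧
      cn1_ok (fun x y => if y < 6 then cn1_lh .N f g x y else false)
        (fun x y => if y < 6 then cn1_lv .N f g x y else false) (18, 4) (0, 5)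
          cn1_N_f_b = true) := by
  decide +kernel

/-- paths in the upper row of a tile -/
theorem cn1_U : ∀ g f f' : Bool,
    (f = true →
      cn1_ok (cn1_dh .U .L g f f') (cn1_dv .U .L g f f') (0, 5) (0, 3)
        (if f' then cn1_P_tt_Ua else cn1_P_tf_Ua) = true ∧
      cn1_ok (cn1_dh .U .L g f f') (cn1_dv .U .L g f f') (18, 4) (0, 1)
        (if f' then cn1_P_tt_Ub else cn1_P_tf_Ub) = true) ∧
    (f = false →
      cn1_ok (cn1_dh .U .L g f f') (cn1_dv .U .L g f f') (0, 3) (0, 1)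
        (if f' then cn1_P_ft_Ua else cn1_P_ff_Ua) = true ∧
      cn1_ok (cn1_dh .U .L g f f') (cn1_dv .U .L g f f') (18, 4) (0, 5)
        (if f' then cn1_P_ft_Ub else cn1_P_ff_Ub) = true) := by
  decide +kernel

/-- paths in the lower row of a tile -/
theorem cn1_L : ∀ g f f' : Bool,
    (f' = true →
      cn1_ok (cn1_dh .U .L g f f') (cn1_dv .U .L g f f') (0, 11) (0, 9)
        (if f then cn1_P_tt_La else cn1_P_ft_La) = true ∧
      cn1_ok (cn1_dh .U .L g f f') (cn1_dv .U .L g f f') (18, 10) (0, 7)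
        (if f then cn1_P_tt_Lb else cn1_P_ft_Lb) = true) ∧
    (f' = false →
      cn1_ok (cn1_dh .U .L g f f') (cn1_dv .U .L g f f') (0, 9) (0, 7)
        (if f then cn1_P_tf_La else cn1_P_ff_La) = true ∧
      cn1_ok (cn1_dh .U .L g f f') (cn1_dv .U .L g f f') (18, 10) (0, 11)
        (if f then cn1_P_tf_Lb else cn1_P_ff_Lb) = true) := by
  decide +kernel

theorem cn1_rkU {T : ℕ → Bool} {i : ℕ} (h : T i = true) : rk T i = .U := if_pos h

theorem cn1_rkL {M : ℕ} {T : ℕ → Bool} (hT : VT M T) {i : ℕ} (h : T i = true) :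
    rk T (i + 1) = .L := by
  unfold rk
  rw [if_neg (by rw [hT.sep i h]; decide), if_pos ⟨by omega, h⟩]

theorem st_CN1 : ST_CN1 := by
  intro s M T a ch hT S hS i hi
  by_cases hU : T i = true
  · -- upper row of a tile
    have hi1 := hT.lt i hU
    have hp := cn1_pair hS hi1
    rw [cn1_rkU hU, cn1_rkL hT hU] at hp
    have key := cn1_ok_iff (S := fun p => S (5 + 4 * s.length + p.1, 4 + 6 * i + p.2)) hp.1 hp.2
    have e := cn1_U (bst s a (i - 1) s.length) (bst s a i s.length) (bst s a (i + 1) s.length)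
    constructor
    · intro hf
      have k1 := key _ _ _ (e.1 hf).1
      have k2 := key _ _ _ (e.1 hf).2
      constructor
      · have := k1
        simp only at this
        rwa [show 4 + 6 * i + 3 = 7 + 6 * i by omega, show 4 + 6 * i + 5 = 9 + 6 * i by omega]
          at this
      · have := k2
        simp only at this
        rwa [show 4 + 6 * i + 1 = 5 + 6 * i by omega, show 4 + 6 * i + 4 = 8 + 6 * i by omega,
          show 5 + 4 * s.length + 18 = 23 + 4 * s.length by omega] at this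
    · intro hf
      have k1 := key _ _ _ (e.2 hf).1
      have k2 := key _ _ _ (e.2 hf).2
      constructor
      · have := k1
        simp only at this
        rwa [show 4 + 6 * i + 3 = 7 + 6 * i by omega, show 4 + 6 * i + 1 = 5 + 6 * i by omega]
          at this
      · have := k2
        simp only at this
        rwa [show 4 + 6 * i + 5 = 9 + 6 * i by omega, show 4 + 6 * i + 4 = 8 + 6 * i by omega,
          show 5 + 4 * s.length + 18 = 23 + 4 * s.length by omega] at this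
  by_cases hL : i ≠ 0 ∧ T (i - 1) = true
  · -- lower row of a tile
    obtain ⟨j, rfl⟩ : ∃ j, i = j + 1 := ⟨i - 1, by omega⟩
    have hj : T j = true := hL.2
    have hp := cn1_pair hS hi
    rw [cn1_rkU hj, cn1_rkL hT hj] at hp
    have key := cn1_ok_iff (S := fun p => S (5 + 4 * s.length + p.1, 4 + 6 * j + p.2)) hp.1 hp.2
    have e := cn1_L (bst s a (j - 1) s.length) (bst s a j s.length) (bst s a (j + 1) s.length)
    constructor
    · intro hf
      have k1 := key _ _ _ (e.1 hf).1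
      have k2 := key _ _ _ (e.1 hf).2
      constructor
      · have := k1
        simp only at this
        rwa [show 4 + 6 * j + 9 = 7 + 6 * (j + 1) by omega,
          show 4 + 6 * j + 11 = 9 + 6 * (j + 1) by omega] at this
      · have := k2
        simp only at this
        rwa [show 4 + 6 * j + 7 = 5 + 6 * (j + 1) by omega,
          show 4 + 6 * j + 10 = 8 + 6 * (j + 1) by omega,
          show 5 + 4 * s.length + 18 = 23 + 4 * s.length by omega] at this
    · intro hf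
      have k1 := key _ _ _ (e.2 hf).1
      have k2 := key _ _ _ (e.2 hf).2
      constructor
      · have := k1
        simp only at this
        rwa [show 4 + 6 * j + 9 = 7 + 6 * (j + 1) by omega,
          show 4 + 6 * j + 7 = 5 + 6 * (j + 1) by omega] at this
      · have := k2
        simp only at this
        rwa [show 4 + 6 * j + 11 = 9 + 6 * (j + 1) by omega,
          show 4 + 6 * j + 10 = 8 + 6 * (j + 1) by omega,
          show 5 + 4 * s.length + 18 = 23 + 4 * s.length by omega] at this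
  · -- other rows
    have hp := cn1_row hS hi
    have hN : rk T i = .N := by
      unfold rk
      rw [if_neg hU, if_neg hL]
    rw [hN] at hp
    have key := cn1_ok_iff (S := fun p => S (5 + 4 * s.length + p.1, 4 + 6 * i + p.2)) hp.1 hp.2
    have e := cn1_N (bst s a (i - 1) s.length) (bst s a i s.length)
    constructor
    · intro hf
      have k1 := key _ _ _ (e.1 hf).1
      have k2 := key _ _ _ (e.1 hf).2
      constructor
      · have := k1
        simp only at this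
        rwa [show 4 + 6 * i + 3 = 7 + 6 * i by omega, show 4 + 6 * i + 5 = 9 + 6 * i by omega]
          at this
      · have := k2
        simp only at this
        rwa [show 4 + 6 * i + 1 = 5 + 6 * i by omega, show 4 + 6 * i + 4 = 8 + 6 * i by omega,
          show 5 + 4 * s.length + 18 = 23 + 4 * s.length by omega] at this
    · intro hf
      have k1 := key _ _ _ (e.2 hf).1
      have k2 := key _ _ _ (e.2 hf).2
      constructor
      · have := k1
        simp only at this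
        rwa [show 4 + 6 * i + 3 = 7 + 6 * i by omega, show 4 + 6 * i + 1 = 5 + 6 * i by omega]
          at this
      · have := k2
        simp only at this
        rwa [show 4 + 6 * i + 5 = 9 + 6 * i by omega, show 4 + 6 * i + 4 = 8 + 6 * i by omega,
          show 5 + 4 * s.length + 18 = 23 + 4 * s.length by omega] at this

end Pool.Agent.Helper96.SE
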